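import Pool.Agent.K4H79.Corr.Defs

/-!
# MP_3bdb72_co: the inequality for all admissible pairs of size at most two
-/

namespace Pool.Agent.Results.MP_3bdb72_co.SizeTwo

open Finset MP3bdb72H79

variable {n : ℕ}

/-! ### The case `n = 2` -/

lemma sum16 (f : Finset (Fin 2 × Fin 2) → ℝ) : ∑ R, f R =
    f ∅ + f {(1,1)} + (f {(1,0)} + f {(1,0),(1,1)}) + (f {(0,1)} + f {(0,1),(1,1)} +
      (f {(0,1),(1,0)} + f {(0,1),(1,0),(1,1)})) +
    (f {(0,0)} + f {(0,0),(1,1)} + (f {(0,0),(1,0)} + f {(0,0),(1,0),(1,1)}) + (f {(0,0),(0,1)} +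
      f {(0,0),(0,1),(1,1)} + (f {(0,0),(0,1),(1,0)} + f {(0,0),(0,1),(1,0),(1,1)}))) := by
  have hu : (Finset.univ : Finset (Finset (Fin 2 × Fin 2)))
      = ({(0,0),(0,1),(1,0),(1,1)} : Finset (Fin 2 × Fin 2)).powerset := by decide
  rw [hu]
  have h1 : ((0,0) : Fin 2 × Fin 2) ∉ ({(0,1),(1,0),(1,1)} : Finset (Fin 2 × Fin 2)) := by decide
  have h2 : ((0,1) : Fin 2 × Fin 2) ∉ ({(1,0),(1,1)} : Finset (Fin 2 × Fin 2)) := by decide
  have h3 : ((1,0) : Fin 2 × Fin 2) ∉ ({(1,1)} : Finset (Fin 2 × Fin 2)) := by decide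
  have h4 : ∀ g : Finset (Fin 2 × Fin 2) → ℝ,
      ∑ R ∈ ({(1,1)} : Finset (Fin 2 × Fin 2)).powerset, g R = g ∅ + g {(1,1)} := by
    intro g
    have : ({(1,1)} : Finset (Fin 2 × Fin 2)).powerset = {∅, {(1,1)}} := by decide
    rw [this, Finset.sum_insert (by decide), Finset.sum_singleton]
  rw [Finset.sum_powerset_insert h1, Finset.sum_powerset_insert h2, Finset.sum_powerset_insert h2,
    Finset.sum_powerset_insert h3, Finset.sum_powerset_insert h3, Finset.sum_powerset_insert h3,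
    Finset.sum_powerset_insert h3]
  simp only [h4]
  rfl

lemma prob_eq (a : Fin n → Fin n → ℝ) (R : Finset (Fin n × Fin n)) :
    prob a R = ∏ e : Fin n × Fin n, if e ∈ R then a e.1 e.2 else 1 - a e.1 e.2 := by
  unfold prob
  rw [Finset.prod_ite]
  congr 1
  · congr 1
    ext e; simp
  · congr 1
    ext e; simp

/-- The size of the largest matching in `R` (for the case `n = 2`). -/
def nu (R : Finset (Fin 2 × Fin 2)) : ℕ :=
  max (R ∩ {(0,0),(1,1)}).card (R ∩ {(0,1),(1,0)}).card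

lemma card_le_nu : ∀ R M : Finset (Fin 2 × Fin 2), M ⊆ R →
    (∀ e ∈ M, ∀ f ∈ M, (e.1 = f.1 ∨ e.2 = f.2) → e = f) → M.card ≤ nu R := by
  decide

lemma maxWeight_const_le (c : ℝ) (hc : 0 ≤ c) (R : Finset (Fin 2 × Fin 2)) :
    maxWeight (fun _ _ => c) R ≤ c * nu R := by
  apply maxWeight_le
  intro M hM hM2
  rw [Finset.sum_const, nsmul_eq_mul, mul_comm]
  apply mul_le_mul_of_nonneg_left _ hc
  exact_mod_cast card_le_nu R M hM hM2

lemma Phi_two_le : Phi (fun _ _ : Fin 2 => (1 / (2:ℕ) : ℝ)) (fun _ _ => (1 / (2:ℕ) : ℝ)) ≤ 11 / 16 := by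
  have hp : ∀ R : Finset (Fin 2 × Fin 2), prob (fun _ _ : Fin 2 => (1 / (2:ℕ) : ℝ)) R = 1 / 16 := by
    intro R
    rw [prob_eq]
    have : ∀ e : Fin 2 × Fin 2, (if e ∈ R then (1 / (2:ℕ) : ℝ) else 1 - (1 / (2:ℕ) : ℝ)) = 1 / 2 := by
      intro e
      split_ifs <;> norm_num
    simp only [this]
    rw [Finset.prod_const]
    simp only [Finset.card_univ, Fintype.card_prod, Fintype.card_fin]
    norm_num
  have hs : ∑ R : Finset (Fin 2 × Fin 2), nu R = 22 := by decide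
  calc Phi (fun _ _ : Fin 2 => (1 / (2:ℕ) : ℝ)) (fun _ _ => (1 / (2:ℕ) : ℝ))
      ≤ ∑ R : Finset (Fin 2 × Fin 2), (1 / 16 : ℝ) * ((1 / (2:ℕ) : ℝ) * nu R) := by
        unfold Phi
        apply Finset.sum_le_sum
        intro R _
        rw [hp R]
        exact mul_le_mul_of_nonneg_left (maxWeight_const_le _ (by norm_num) R) (by norm_num)
    _ = (1 / 16 : ℝ) * ((1 / (2:ℕ) : ℝ) * ((∑ R : Finset (Fin 2 × Fin 2), nu R : ℕ) : ℝ)) := by
        push_cast
        rw [Finset.mul_sum, Finset.mul_sum]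
    _ = 11 / 16 := by
        rw [hs]; norm_num

/-- The weight matrix `(x, y; y, x)`. -/
def sym2 (x y : ℝ) : Fin 2 → Fin 2 → ℝ := fun i j => if i = j then x else y

/-- Lower bounds for the weight of a maximum-weight matching. -/
lemma le_maxWeight_diag (x y : ℝ) (R : Finset (Fin 2 × Fin 2)) :
    ((R ∩ {(0,0),(1,1)}).card : ℝ) * x ≤ maxWeight (sym2 x y) R := by
  have hM : IsMatching (R ∩ {(0,0),(1,1)}) := by
    have : ∀ e ∈ ({(0,0),(1,1)} : Finset (Fin 2 × Fin 2)), ∀ f ∈ ({(0,0),(1,1)} : Finset (Fin 2 × Fin 2)),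
        (e.1 = f.1 ∨ e.2 = f.2) → e = f := by decide
    intro e he f hf h
    exact this e (Finset.mem_inter.mp he).2 f (Finset.mem_inter.mp hf).2 h
  refine le_trans (le_of_eq ?_) (le_maxWeight (sym2 x y) Finset.inter_subset_left hM)
  rw [← nsmul_eq_mul, ← Finset.sum_const]
  apply Finset.sum_congr rfl
  intro e he
  have h1 : ∀ e ∈ ({(0,0),(1,1)} : Finset (Fin 2 × Fin 2)), e.1 = e.2 := by decide
  simp only [sym2, h1 e (Finset.mem_inter.mp he).2, if_true]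

lemma le_maxWeight_off (x y : ℝ) (R : Finset (Fin 2 × Fin 2)) :
    ((R ∩ {(0,1),(1,0)}).card : ℝ) * y ≤ maxWeight (sym2 x y) R := by
  have hM : IsMatching (R ∩ {(0,1),(1,0)}) := by
    have : ∀ e ∈ ({(0,1),(1,0)} : Finset (Fin 2 × Fin 2)), ∀ f ∈ ({(0,1),(1,0)} : Finset (Fin 2 × Fin 2)),
        (e.1 = f.1 ∨ e.2 = f.2) → e = f := by decide
    intro e he f hf h
    exact this e (Finset.mem_inter.mp he).2 f (Finset.mem_inter.mp hf).2 h
  refine le_trans (le_of_eq ?_) (le_maxWeight (sym2 x y) Finset.inter_subset_left hM)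
  rw [← nsmul_eq_mul, ← Finset.sum_const]
  apply Finset.sum_congr rfl
  intro e he
  have h1 : ∀ e ∈ ({(0,1),(1,0)} : Finset (Fin 2 × Fin 2)), ¬ e.1 = e.2 := by decide
  simp only [sym2, h1 e (Finset.mem_inter.mp he).2, if_false]

lemma Phi_sym2_ge (a b x y : ℝ) (ha : 0 ≤ a) (hb : 0 ≤ b) (hab : a + b = 1) (hx : 0 ≤ x)
    (hy : 0 ≤ y) :
    2 * a ^ 3 * b * x + 2 * a ^ 4 * x + 2 * a * b ^ 3 * y + 2 * b ^ 4 * y
      + 6 * a ^ 2 * b ^ 2 * max x y + 2 * a ^ 3 * b * max (2 * x) y + 2 * a * b ^ 3 * max x (2 * y)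
      ≤ Phi (sym2 a b) (sym2 x y) := by
  have h0 : ∀ i j, 0 ≤ sym2 a b i j := by
    intro i j; unfold sym2; split_ifs <;> assumption
  have h1 : ∀ i j, sym2 a b i j ≤ 1 := by
    intro i j; unfold sym2; split_ifs <;> linarith
  have h2 : ∑ R : Finset (Fin 2 × Fin 2), prob (sym2 a b) R *
      max (((R ∩ {(0,0),(1,1)}).card : ℝ) * x) (((R ∩ {(0,1),(1,0)}).card : ℝ) * y)
      ≤ Phi (sym2 a b) (sym2 x y) := by
    unfold Phi
    apply Finset.sum_le_sum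
    intro R _
    exact mul_le_mul_of_nonneg_left (max_le (le_maxWeight_diag x y R) (le_maxWeight_off x y R))
      (prob_nonneg _ h0 h1 R)
  refine le_trans (le_of_eq ?_) h2
  rw [sum16]
  simp only [prob_eq, Fintype.prod_prod_type, Fin.prod_univ_two]
  have d0 : ((∅ : Finset (Fin 2 × Fin 2)) ∩ {(0,0),(1,1)}).card = 0 := by decide
  have d1 : ((∅ : Finset (Fin 2 × Fin 2)) ∩ {(0,1),(1,0)}).card = 0 := by decide
  have d2 : (({(1,1)} : Finset (Fin 2 × Fin 2)) ∩ {(0,0),(1,1)}).card = 1 := by decide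
  have d3 : (({(1,1)} : Finset (Fin 2 × Fin 2)) ∩ {(0,1),(1,0)}).card = 0 := by decide
  have d4 : (({(1,0)} : Finset (Fin 2 × Fin 2)) ∩ {(0,0),(1,1)}).card = 0 := by decide
  have d5 : (({(1,0)} : Finset (Fin 2 × Fin 2)) ∩ {(0,1),(1,0)}).card = 1 := by decide
  have d6 : (({(1,0),(1,1)} : Finset (Fin 2 × Fin 2)) ∩ {(0,0),(1,1)}).card = 1 := by decide
  have d7 : (({(1,0),(1,1)} : Finset (Fin 2 × Fin 2)) ∩ {(0,1),(1,0)}).card = 1 := by decide
  have d8 : (({(0,1)} : Finset (Fin 2 × Fin 2)) ∩ {(0,0),(1,1)}).card = 0 := by decide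
  have d9 : (({(0,1)} : Finset (Fin 2 × Fin 2)) ∩ {(0,1),(1,0)}).card = 1 := by decide
  have d10 : (({(0,1),(1,1)} : Finset (Fin 2 × Fin 2)) ∩ {(0,0),(1,1)}).card = 1 := by decide
  have d11 : (({(0,1),(1,1)} : Finset (Fin 2 × Fin 2)) ∩ {(0,1),(1,0)}).card = 1 := by decide
  have d12 : (({(0,1),(1,0)} : Finset (Fin 2 × Fin 2)) ∩ {(0,0),(1,1)}).card = 0 := by decide
  have d13 : (({(0,1),(1,0)} : Finset (Fin 2 × Fin 2)) ∩ {(0,1),(1,0)}).card = 2 := by decide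
  have d14 : (({(0,1),(1,0),(1,1)} : Finset (Fin 2 × Fin 2)) ∩ {(0,0),(1,1)}).card = 1 := by decide
  have d15 : (({(0,1),(1,0),(1,1)} : Finset (Fin 2 × Fin 2)) ∩ {(0,1),(1,0)}).card = 2 := by decide
  have d16 : (({(0,0)} : Finset (Fin 2 × Fin 2)) ∩ {(0,0),(1,1)}).card = 1 := by decide
  have d17 : (({(0,0)} : Finset (Fin 2 × Fin 2)) ∩ {(0,1),(1,0)}).card = 0 := by decide
  have d18 : (({(0,0),(1,1)} : Finset (Fin 2 × Fin 2)) ∩ {(0,0),(1,1)}).card = 2 := by decide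
  have d19 : (({(0,0),(1,1)} : Finset (Fin 2 × Fin 2)) ∩ {(0,1),(1,0)}).card = 0 := by decide
  have d20 : (({(0,0),(1,0)} : Finset (Fin 2 × Fin 2)) ∩ {(0,0),(1,1)}).card = 1 := by decide
  have d21 : (({(0,0),(1,0)} : Finset (Fin 2 × Fin 2)) ∩ {(0,1),(1,0)}).card = 1 := by decide
  have d22 : (({(0,0),(1,0),(1,1)} : Finset (Fin 2 × Fin 2)) ∩ {(0,0),(1,1)}).card = 2 := by decide
  have d23 : (({(0,0),(1,0),(1,1)} : Finset (Fin 2 × Fin 2)) ∩ {(0,1),(1,0)}).card = 1 := by decide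
  have d24 : (({(0,0),(0,1)} : Finset (Fin 2 × Fin 2)) ∩ {(0,0),(1,1)}).card = 1 := by decide
  have d25 : (({(0,0),(0,1)} : Finset (Fin 2 × Fin 2)) ∩ {(0,1),(1,0)}).card = 1 := by decide
  have d26 : (({(0,0),(0,1),(1,1)} : Finset (Fin 2 × Fin 2)) ∩ {(0,0),(1,1)}).card = 2 := by decide
  have d27 : (({(0,0),(0,1),(1,1)} : Finset (Fin 2 × Fin 2)) ∩ {(0,1),(1,0)}).card = 1 := by decide
  have d28 : (({(0,0),(0,1),(1,0)} : Finset (Fin 2 × Fin 2)) ∩ {(0,0),(1,1)}).card = 1 := by decide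
  have d29 : (({(0,0),(0,1),(1,0)} : Finset (Fin 2 × Fin 2)) ∩ {(0,1),(1,0)}).card = 2 := by decide
  have d30 : (({(0,0),(0,1),(1,0),(1,1)} : Finset (Fin 2 × Fin 2)) ∩ {(0,0),(1,1)}).card = 2 := by decide
  have d31 : (({(0,0),(0,1),(1,0),(1,1)} : Finset (Fin 2 × Fin 2)) ∩ {(0,1),(1,0)}).card = 2 := by decide
  rw [d0, d1, d2, d3, d4, d5, d6, d7, d8, d9, d10, d11, d12, d13, d14, d15, d16, d17, d18, d19, d20, d21, d22, d23, d24, d25, d26, d27, d28, d29, d30, d31]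
  have e1 : 1 - a = b := by linarith
  have e2 : 1 - b = a := by linarith
  have m1 : max (2 * x) (2 * y) = 2 * max x y := by
    rw [mul_max_of_nonneg _ _ (by norm_num : (0 : ℝ) ≤ 2)]
  have m2 : max x 0 = x := max_eq_left hx
  have m3 : max 0 y = y := max_eq_right hy
  have m4 : max (2 * x) 0 = 2 * x := max_eq_left (by positivity)
  have m5 : max 0 (2 * y) = 2 * y := max_eq_right (by positivity)
  simp [sym2, e1, e2, m1, m2, m3, m4, m5]
  ring

lemma key_ineq (a b x y : ℝ) (ha : 0 ≤ a) (hb : 0 ≤ b) (hab : a + b = 1) (hx : 0 ≤ x) (hy : 0 ≤ y)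
    (h : a * x + b * y = 1 / 2) (hyx : y ≤ x) :
    11 / 16 ≤ 2 * a ^ 3 * b * x + 2 * a ^ 4 * x + 2 * a * b ^ 3 * y + 2 * b ^ 4 * y
      + 6 * a ^ 2 * b ^ 2 * max x y + 2 * a ^ 3 * b * max (2 * x) y
      + 2 * a * b ^ 3 * max x (2 * y) := by
  have hb' : b = 1 - a := by linarith
  have P1 : 0 ≤ 5 / 16 - a * b - (a * b) ^ 2 := by
    have h1 : 0 ≤ 1 / 4 - a * b := by nlinarith [sq_nonneg (a - b)]
    have h2 : 0 ≤ a * b := mul_nonneg ha hb
    nlinarith [mul_nonneg h1 h2]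
  have P2 : 0 ≤ 4 * a ^ 4 + 12 * a ^ 3 * b + 12 * a ^ 2 * b ^ 2 + 6 * a * b ^ 3 + 2 * b ^ 4
      - 11 / 16 * (4 * a + 2 * b) := by
    have e : 4 * a ^ 4 + 12 * a ^ 3 * b + 12 * a ^ 2 * b ^ 2 + 6 * a * b ^ 3 + 2 * b ^ 4
      - 11 / 16 * (4 * a + 2 * b) = 5 / 4 * a ^ 4 + 19 / 8 * (a ^ 3 * b) - 3 / 8 * (a ^ 2 * b ^ 2)
        - 7 / 8 * (a * b ^ 3) + 5 / 8 * b ^ 4 := by
      rw [hb']; ring
    rw [e]
    have h3 : 0 ≤ a ^ 3 * b := by positivity
    nlinarith [sq_nonneg (b * (1.15 * b - a)), sq_nonneg (a ^ 2 - 0.3 * b ^ 2),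
      sq_nonneg (b ^ 2), sq_nonneg (a * b), sq_nonneg (a ^ 2)]
  have m2 : max (2 * x) y = 2 * x := max_eq_left (by linarith)
  rw [max_eq_left hyx, m2]
  rcases le_total (2 * y) x with hc | hc
  · rw [max_eq_left hc]
    have h4 : 0 ≤ x - 2 * y := by linarith
    have e : 2 * a ^ 3 * b * x + 2 * a ^ 4 * x + 2 * a * b ^ 3 * y + 2 * b ^ 4 * y
      + 6 * a ^ 2 * b ^ 2 * x + 2 * a ^ 3 * b * (2 * x)
      + 2 * a * b ^ 3 * x = 11 / 8 * (a * x + b * y)
        + y * (4 * a ^ 4 + 12 * a ^ 3 * b + 12 * a ^ 2 * b ^ 2 + 6 * a * b ^ 3 + 2 * b ^ 4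
      - 11 / 16 * (4 * a + 2 * b)) + (x - 2 * y) * (5 / 8 * a) := by
      rw [hb']; ring
    rw [e, h]
    have h5 := mul_nonneg hy P2
    have h6 : 0 ≤ (x - 2 * y) * (5 / 8 * a) := by positivity
    linarith
  · rw [max_eq_right hc]
    have h4 : 0 ≤ 2 * y - x := by linarith
    have h4' : 0 ≤ x - y := by linarith
    have e : 2 * a ^ 3 * b * x + 2 * a ^ 4 * x + 2 * a * b ^ 3 * y + 2 * b ^ 4 * y
      + 6 * a ^ 2 * b ^ 2 * x + 2 * a ^ 3 * b * (2 * x)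
      + 2 * a * b ^ 3 * (2 * y) = 11 / 8 * (a * x + b * y)
        + (x - y) * (4 * a ^ 4 + 12 * a ^ 3 * b + 12 * a ^ 2 * b ^ 2 + 6 * a * b ^ 3 + 2 * b ^ 4
      - 11 / 16 * (4 * a + 2 * b)) + (2 * y - x) * (2 * (5 / 16 - a * b - (a * b) ^ 2)) := by
      rw [hb']; ring
    rw [e, h]
    have h5 := mul_nonneg h4' P2
    have h6 : 0 ≤ (2 * y - x) * (2 * (5 / 16 - a * b - (a * b) ^ 2)) :=
      mul_nonneg h4 (by linarith)
    linarith

lemma two_case (a w : Fin 2 → Fin 2 → ℝ) (h : Admissible a w) : 11 / 16 ≤ Phi a w := by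
  have r0 := h.stoch.row 0
  have r1 := h.stoch.row 1
  have c0 := h.stoch.col 0
  rw [Fin.sum_univ_two] at r0 r1 c0
  have e10 : a 1 0 = a 0 1 := by linarith
  have e11 : a 1 1 = a 0 0 := by linarith
  have ha : a = sym2 (a 0 0) (a 0 1) := by
    funext i j
    fin_cases i <;> fin_cases j <;> simp [sym2, e10, e11]
  set G : Finset (Equiv.Perm (Fin 2) × Equiv.Perm (Fin 2)) :=
    {(1, 1), (Equiv.swap 0 1, Equiv.swap 0 1)} with hG
  have hne : ((1, 1) : Equiv.Perm (Fin 2) × Equiv.Perm (Fin 2)) ≠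
      (Equiv.swap 0 1, Equiv.swap 0 1) := by decide
  have hcard : G.card = 2 := by
    rw [hG]; exact Finset.card_pair hne
  have hGn : G.Nonempty := ⟨(1, 1), by rw [hG]; simp⟩
  have hinv : ∀ s ∈ G, ∀ i j, a (s.1 i) (s.2 j) = a i j := by
    intro s hs i j
    rw [hG, Finset.mem_insert, Finset.mem_singleton] at hs
    rcases hs with rfl | rfl
    · rfl
    · fin_cases i <;> fin_cases j <;> simp [e10, e11]
  have hav : average G w = sym2 ((w 0 0 + w 1 1) / 2) ((w 0 1 + w 1 0) / 2) := by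
    funext i j
    unfold average
    rw [hcard, hG, Finset.sum_pair hne]
    fin_cases i <;> fin_cases j <;> simp [sym2] <;> ring
  have hadm := admissible_average G hGn a w h hinv
  have hle := Phi_average_le G hGn a w h.stoch.nonneg h.stoch.le_one hinv
  have htot := hadm.total
  rw [hav] at hadm hle htot
  set x := (w 0 0 + w 1 1) / 2 with hx
  set y := (w 0 1 + w 1 0) / 2 with hy
  have hx0 : 0 ≤ x := by
    have := h.nonneg 0 0
    have := h.nonneg 1 1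
    rw [hx]; linarith
  have hy0 : 0 ≤ y := by
    have := h.nonneg 0 1
    have := h.nonneg 1 0
    rw [hy]; linarith
  have ha0 := h.stoch.nonneg 0 0
  have hb0 := h.stoch.nonneg 0 1
  have htot2 : a 0 0 * x + a 0 1 * y = 1 / 2 := by
    rw [Fin.sum_univ_two, Fin.sum_univ_two, Fin.sum_univ_two] at htot
    simp only [sym2] at htot
    norm_num at htot
    rw [e10, e11] at htot
    linarith
  refine le_trans ?_ hle
  rw [ha]
  refine le_trans ?_ (Phi_sym2_ge (a 0 0) (a 0 1) x y ha0 hb0 r0 hx0 hy0)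
  rcases le_total y x with hyx | hxy
  · exact key_ineq (a 0 0) (a 0 1) x y ha0 hb0 r0 hx0 hy0 htot2 hyx
  · have := key_ineq (a 0 1) (a 0 0) y x hb0 ha0 (by linarith) hy0 hx0 (by linarith) hxy
    rw [max_comm y x, max_comm (2 * y) x, max_comm y (2 * x)] at this
    refine le_trans this (le_of_eq ?_)
    ring

/-- **Theorem.** For `n = 1` and `n = 2` the inequality `Φ_n(U_n, U_n) ≤ Φ_n(A, W)` holds for every
admissible pair `(A, W)` of size `n`. -/
theorem result (n : ℕ) (h1 : 1 ≤ n) (h2 : n ≤ 2) (a w : Fin n → Fin n → ℝ) (h : Admissible a w) :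
    Phi (fun _ _ : Fin n => (1 / n : ℝ)) (fun _ _ => (1 / n : ℝ)) ≤ Phi a w := by
  have : n = 1 ∨ n = 2 := by omega
  rcases this with rfl | rfl
  · have ha : a = fun _ _ => (1 / (1 : ℕ) : ℝ) := by
      funext i j
      have := h.stoch.row i
      rw [Fin.sum_univ_one] at this
      rw [Subsingleton.elim j 0, this]
      norm_num
    subst ha
    exact uniform_case le_rfl w h
  · exact le_trans Phi_two_le (two_case a w h)

end Pool.Agent.Results.MP_3bdb72_co.SizeTwo
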