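import Pool.Agent.K4H79.Corr.Defs

/-!
# MP_3bdb72_co: uniform probabilities, arbitrary weights
-/

namespace Pool.Agent.Results.MP_3bdb72_co.UniformProbabilities

open MP3bdb72H79

/-- **Theorem.** For every `n ≥ 1`: if `(U_n, W)` is admissible, then
`Φ_n(U_n, U_n) ≤ Φ_n(U_n, W)`. -/
theorem result (n : ℕ) (hn : 1 ≤ n) (w : Fin n → Fin n → ℝ)
    (h : Admissible (fun _ _ => (1 / n : ℝ)) w) :
    Phi (fun _ _ : Fin n => (1 / n : ℝ)) (fun _ _ => (1 / n : ℝ))
      ≤ Phi (fun _ _ => (1 / n : ℝ)) w :=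
  uniform_case hn w h

end Pool.Agent.Results.MP_3bdb72_co.UniformProbabilities
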